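import Mathlib
import Pool.Agent.Q2.PM.Stm

/-! Job B13 of project PM (helper2): the minimal noncentralized normal 2-subgroup. -/

namespace Q295.PM_B13

open Subgroup Q2.PM
open Q2.TN (IsPNil IsSyl IsChief Nm)

theorem lemA {G : Type} [Group G] (d e : G) (m k : ℕ) (hm : Odd m) (he : e ^ m = 1)
    (hc : (d⁻¹ * e⁻¹ * d * e) * e = e * (d⁻¹ * e⁻¹ * d * e))
    (hk : (d⁻¹ * e⁻¹ * d * e) ^ (2 ^ k) = 1) : d * e = e * d := by
  obtain ⟨c, hcdef⟩ : ∃ c, c = d⁻¹ * e⁻¹ * d * e := ⟨_, rfl⟩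
  rw [← hcdef] at hc hk
  have h1 : e⁻¹ * d * e = d * c := by rw [hcdef]; group
  have hce : Commute c e := hc
  have h2 : ∀ j : ℕ, (e ^ j)⁻¹ * d * e ^ j = d * c ^ j := by
    intro j
    induction j with
    | zero => simp
    | succ j ih =>
      have h0 : (e ^ (j+1))⁻¹ * d * e ^ (j+1) = e⁻¹ * ((e ^ j)⁻¹ * d * e ^ j) * e := by
        rw [pow_succ]; simp only [mul_inv_rev, mul_assoc]
      rw [h0, ih]
      have h3 : c ^ j * e = e * c ^ j := (hce.pow_left j).eq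
      calc e⁻¹ * (d * c ^ j) * e = e⁻¹ * d * (c ^ j * e) := by simp only [mul_assoc]
        _ = e⁻¹ * d * (e * c ^ j) := by rw [h3]
        _ = (e⁻¹ * d * e) * c ^ j := by simp only [mul_assoc]
        _ = d * c * c ^ j := by rw [h1]
        _ = d * c ^ (j+1) := by rw [pow_succ', mul_assoc]
  have h4 : c ^ m = 1 := by
    have h := h2 m
    rw [he] at h
    simpa using h
  have h5 : c = 1 := by
    have h6 : c ^ (Nat.gcd m (2 ^ k)) = 1 := pow_gcd_eq_one.mpr ⟨h4, hk⟩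
    have h7 : Nat.gcd m (2 ^ k) = 1 := Nat.Coprime.pow_right k (Nat.coprime_two_right.mpr hm)
    rwa [h7, pow_one] at h6
  rw [h5, mul_one] at h1
  calc d * e = e * (e⁻¹ * d * e) := by group
    _ = e * d := by rw [h1]

theorem pow4 {G : Type} [Group G] (M D : Subgroup G) (hsq : ∀ x ∈ D, x * x ∈ M)
    (hcm : ∀ x ∈ D, ∀ y ∈ D, x * y * x⁻¹ * y⁻¹ ∈ M) (hMD : ∀ x ∈ M, ∀ d ∈ D, x * d = d * x)
    (u v : G) (hu : u ∈ D) (hv : v ∈ D) : (u * v) ^ 4 = u ^ 4 * v ^ 4 := by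
  obtain ⟨z, hz⟩ : ∃ z, z = v * u * v⁻¹ * u⁻¹ := ⟨_, rfl⟩
  have hzM : z ∈ M := hz ▸ hcm v hv u hu
  have h1 : v * u = z * (u * v) := by rw [hz]; group
  have hzu : z * u = u * z := hMD z hzM u hu
  have hzv : z * v = v * z := hMD z hzM v hv
  have huu : ∀ d ∈ D, (u * u) * d = d * (u * u) := hMD _ (hsq u hu)
  have h2 : z * z = 1 := by
    have h3 : v * (u * u) = z * z * ((u * u) * v) := by
      calc v * (u * u) = (v * u) * u := by group
        _ = z * (u * v) * u := by rw [h1]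
        _ = z * u * (v * u) := by group
        _ = z * u * (z * (u * v)) := by rw [h1]
        _ = z * (u * z) * (u * v) := by group
        _ = z * (z * u) * (u * v) := by rw [hzu]
        _ = z * z * ((u * u) * v) := by group
    rw [← huu v hv] at h3
    have h4 : z * z * ((u * u) * v) = 1 * ((u * u) * v) := by rw [← h3, one_mul]
    exact mul_right_cancel h4
  have h5 : (u * v) * (u * v) = z * ((u * u) * (v * v)) := by
    calc (u * v) * (u * v) = u * (v * u) * v := by group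
      _ = u * (z * (u * v)) * v := by rw [h1]
      _ = (u * z) * u * v * v := by group
      _ = (z * u) * u * v * v := by rw [hzu]
      _ = z * ((u * u) * (v * v)) := by group
  have hvvD : v * v ∈ D := D.mul_mem hv hv
  have huuD : u * u ∈ D := D.mul_mem hu hu
  have h6 : z * ((u * u) * (v * v)) = ((u * u) * (v * v)) * z := hMD z hzM _ (D.mul_mem huuD hvvD)
  calc (u * v) ^ 4 = ((u * v) * (u * v)) * ((u * v) * (u * v)) := by
        simp only [pow_succ, pow_zero, one_mul, mul_assoc]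
    _ = (z * ((u * u) * (v * v))) * (z * ((u * u) * (v * v))) := by rw [h5]
    _ = (z * ((u * u) * (v * v))) * (((u * u) * (v * v)) * z) := by rw [h6]
    _ = z * ((u * u) * (v * v)) * ((u * u) * (v * v)) * z := by group
    _ = z * (((u * u) * (v * v)) * ((u * u) * (v * v))) * z := by group
    _ = (((u * u) * (v * v)) * ((u * u) * (v * v))) * z * z := by
        rw [hMD z hzM _ (D.mul_mem (D.mul_mem huuD hvvD) (D.mul_mem huuD hvvD))]
    _ = (((u * u) * (v * v)) * ((u * u) * (v * v))) * (z * z) := by group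
    _ = ((u * u) * (v * v)) * ((u * u) * (v * v)) := by rw [h2, mul_one]
    _ = (u * u) * ((v * v) * (u * u)) * (v * v) := by group
    _ = (u * u) * ((u * u) * (v * v)) * (v * v) := by rw [huu (v * v) hvvD]
    _ = u ^ 4 * v ^ 4 := by simp only [pow_succ, pow_zero, one_mul, mul_assoc]

theorem b13 (h1 : S_B1) : S_B13 := by
  intro G _ _ hex
  obtain ⟨Bad, hBad⟩ : ∃ Bad : Subgroup G → Prop, Bad = fun D : Subgroup G => D.Normal ∧ IsPGroup 2 D ∧
    ∃ (d e : G) (m : ℕ), d ∈ D ∧ Odd m ∧ e ^ m = 1 ∧ d * e ≠ e * d := ⟨_, rfl⟩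
  obtain ⟨E, hE⟩ := hex
  have hne : ({D : Subgroup G | Bad D}).Nonempty := ⟨E, by show Bad E; rw [hBad]; exact hE⟩
  obtain ⟨D, hDmin⟩ := (Set.toFinite {D : Subgroup G | Bad D}).exists_minimal hne
  have hDB : Bad D := hDmin.prop
  have hDB' := hDB
  rw [hBad] at hDB'
  obtain ⟨hDn, hD2, d₀, e₀, m₀, hd₀, hm₀, he₀, hne₀⟩ := hDB'
  have hsmall : ∀ L : Subgroup G, L.Normal → L < D → ∀ (x e : G) (m : ℕ), x ∈ L → Odd m → e ^ m = 1 →
      x * e = e * x := by
    intro L hL hLD x e m hx hm he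
    by_contra hcon
    have hbadL : Bad L := by
      rw [hBad]
      exact ⟨hL, hD2.to_le hLD.le, x, e, m, hx, hm, he, hcon⟩
    exact absurd (hDmin.le_of_le hbadL hLD.le) (not_le_of_gt hLD)
  -- a maximal normal subgroup
  have hbot : (⊥ : Subgroup G) < D := by
    rw [bot_lt_iff_ne_bot]
    intro h
    rw [h, Subgroup.mem_bot] at hd₀
    apply hne₀
    rw [hd₀, one_mul, mul_one]
  have hne2 : ({L : Subgroup G | L.Normal ∧ L < D}).Nonempty := ⟨⊥, inferInstance, hbot⟩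
  obtain ⟨M, hMmax⟩ := (Set.toFinite {L : Subgroup G | L.Normal ∧ L < D}).exists_maximal hne2
  obtain ⟨hMn, hMD⟩ : M.Normal ∧ M < D := hMmax.prop
  have hchief : IsChief M D := by
    refine ⟨hMn, hDn, hMD, ?_⟩
    intro L hL hML hLD
    by_cases h : L = D
    · exact Or.inr h
    · left
      have hLD' : L < D := lt_of_le_of_ne hLD h
      have h3 : L ≤ M := hMmax.le_of_ge ⟨hL, hLD'⟩ hML
      exact le_antisymm h3 hML
  -- the generated subgroup
  obtain ⟨S, hS⟩ : ∃ S : Set G, S = {x | ∃ d ∈ D, ∃ (e : G) (m : ℕ), Odd m ∧ e ^ m = 1 ∧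
    x = d⁻¹ * e⁻¹ * d * e} := ⟨_, rfl⟩
  have hSD : S ⊆ (D : Set G) := by
    intro x hx
    rw [hS] at hx
    obtain ⟨d, hd, e, m, hm, he, rfl⟩ := hx
    have h3 : e⁻¹ * d * e⁻¹⁻¹ ∈ D := hDn.conj_mem d hd e⁻¹
    rw [inv_inv] at h3
    have h4 : d⁻¹ * (e⁻¹ * d * e) ∈ D := D.mul_mem (D.inv_mem hd) h3
    have h5 : d⁻¹ * e⁻¹ * d * e = d⁻¹ * (e⁻¹ * d * e) := by group
    show d⁻¹ * e⁻¹ * d * e ∈ D
    rw [h5]; exact h4
  have hD₀ : normalClosure S ≤ D := normalClosure_le_normal hSD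
  have hpow : ∀ x ∈ D, ∃ k : ℕ, x ^ (2 ^ k) = 1 := by
    intro x hx
    obtain ⟨k, hk⟩ := hD2 ⟨x, hx⟩
    refine ⟨k, ?_⟩
    have := congrArg Subtype.val hk
    simpa using this
  have hD₀eq : normalClosure S = D := by
    by_contra hcon
    have hlt : normalClosure S < D := lt_of_le_of_ne hD₀ hcon
    apply hne₀
    have hcS : d₀⁻¹ * e₀⁻¹ * d₀ * e₀ ∈ S := by
      rw [hS]; exact ⟨d₀, hd₀, e₀, m₀, hm₀, he₀, rfl⟩
    obtain ⟨k, hk⟩ := hpow _ (hSD hcS)
    exact lemA d₀ e₀ m₀ k hm₀ he₀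
      (hsmall _ normalClosure_normal hlt _ e₀ m₀ (subset_normalClosure hcS) hm₀ he₀) hk
  have hMe : ∀ (e : G) (m : ℕ), Odd m → e ^ m = 1 → ∀ x ∈ M, x * e = e * x := by
    intro e m hm he x hx
    exact hsmall M hMn hMD x e m hx hm he
  have hcen : ∀ x ∈ M, ∀ d ∈ D, x * d = d * x := by
    have h3 : S ⊆ (centralizer (M : Set G) : Set G) := by
      intro s hs
      rw [hS] at hs
      obtain ⟨d, hd, e, m, hm, he, rfl⟩ := hs
      show d⁻¹ * e⁻¹ * d * e ∈ centralizer (M : Set G)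
      rw [mem_centralizer_iff]
      intro x hx
      have h4 : x * e = e * x := hMe e m hm he x hx
      have h5 : (d⁻¹ * e⁻¹ * d) ^ m = 1 := by
        have h6 : (d⁻¹ * e⁻¹ * d⁻¹⁻¹) ^ m = d⁻¹ * e⁻¹ ^ m * d⁻¹⁻¹ := conj_pow
        rw [inv_inv] at h6
        rw [h6, inv_pow, he]
        group
      have h7 : x * (d⁻¹ * e⁻¹ * d) = (d⁻¹ * e⁻¹ * d) * x := hMe _ m hm h5 x hx
      calc x * (d⁻¹ * e⁻¹ * d * e) = x * (d⁻¹ * e⁻¹ * d) * e := by group
        _ = (d⁻¹ * e⁻¹ * d) * x * e := by rw [h7]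
        _ = (d⁻¹ * e⁻¹ * d) * (x * e) := by group
        _ = (d⁻¹ * e⁻¹ * d) * (e * x) := by rw [h4]
        _ = d⁻¹ * e⁻¹ * d * e * x := by group
    have := hMn
    have h4 : normalClosure S ≤ centralizer (M : Set G) := normalClosure_le_normal h3
    rw [hD₀eq] at h4
    intro x hx d hd
    exact mem_centralizer_iff.mp (h4 hd) x hx
  obtain ⟨hsq, hcm⟩ := h1 G M D D hchief hD2 hDn hD2
  have hp4 := pow4 M D hsq hcm hcen
  -- the subgroup of elements with fourth power 1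
  let D4 : Subgroup G :=
    { carrier := {x | x ∈ D ∧ x ^ 4 = 1}
      mul_mem' := by
        rintro a b ⟨ha, ha4⟩ ⟨hb, hb4⟩
        refine ⟨D.mul_mem ha hb, ?_⟩
        rw [hp4 a b ha hb, ha4, hb4, one_mul]
      one_mem' := ⟨D.one_mem, one_pow 4⟩
      inv_mem' := by
        rintro a ⟨ha, ha4⟩
        exact ⟨D.inv_mem ha, by rw [inv_pow, ha4, inv_one]⟩ }
  have hD4n : D4.Normal := by
    constructor
    rintro n ⟨hn, hn4⟩ g
    refine ⟨hDn.conj_mem n hn g, ?_⟩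
    rw [conj_pow, hn4]
    group
  have hSD4 : S ⊆ (D4 : Set G) := by
    intro s hs
    have hsD := hSD hs
    refine ⟨hsD, ?_⟩
    rw [hS] at hs
    obtain ⟨d, hd, e, m, hm, he, hsdef⟩ := hs
    have h3 : d * s = e⁻¹ * d * e := by rw [hsdef]; group
    have h4 : (d * s) ^ 4 = d ^ 4 * s ^ 4 := hp4 d s hd hsD
    have h5 : (e⁻¹ * d * e) ^ 4 = e⁻¹ * d ^ 4 * e := by
      have h6 : (e⁻¹ * d * e⁻¹⁻¹) ^ 4 = e⁻¹ * d ^ 4 * e⁻¹⁻¹ := conj_pow
      rw [inv_inv] at h6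
      exact h6
    have hd4 : d ^ 4 ∈ M := by
      have h7 : d ^ 4 = (d * d) * (d * d) := by
        simp only [pow_succ, pow_zero, one_mul, mul_assoc]
      rw [h7]
      exact M.mul_mem (hsq d hd) (hsq d hd)
    have h8 : d ^ 4 * e = e * d ^ 4 := hMe e m hm he _ hd4
    rw [h3, h5] at h4
    have h9 : e⁻¹ * d ^ 4 * e = d ^ 4 := by
      rw [mul_assoc, h8]; group
    rw [h9] at h4
    have h10 : d ^ 4 * s ^ 4 = d ^ 4 * 1 := by rw [← h4, mul_one]
    exact mul_left_cancel h10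
  have hDD4 : D ≤ D4 := by
    have h3 : normalClosure S ≤ D4 := normalClosure_le_normal hSD4
    rwa [hD₀eq] at h3
  exact ⟨M, D, hchief, hD2, ⟨d₀, e₀, m₀, hd₀, hm₀, he₀, hne₀⟩, hMe, hcen, fun x hx => (hDD4 hx).2⟩

end Q295.PM_B13
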