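import Mathlib
import Pool.Agent.Q2.PM.Stm

/-! Job C13 of project PM (helper2): for k = 2 every normal 2-subgroup is centralized by all elements of
odd order. -/

namespace Q295.PM_C13

open Subgroup Q2.PM
open Q2.TN (IsPNil IsSyl IsChief Nm)

theorem lemA {G : Type} [Group G] (d e : G) (m k : ℕ) (hm : Odd m) (he : e ^ m = 1)
    (hc : (d⁻¹ * e⁻¹ * d * e) * e = e * (d⁻¹ * e⁻¹ * d * e))
    (hk : (d⁻¹ * e⁻¹ * d * e) ^ (2 ^ k) = 1) : d * e = e * d := by
  obtain ⟨c, hcdef⟩ : ∃ c, c = d⁻¹ * e⁻¹ * d * e := ⟨_, rfl⟩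
  rw [← hcdef] at hc hk
  have h1 : e⁻¹ * d * e = d * c := by rw [hcdef]; group
  have hce : Commute c e := hc
  have h2 : ∀ j : ℕ, (e ^ j)⁻¹ * d * e ^ j = d * c ^ j := by
    intro j
    induction j with
    | zero => simp
    | succ j ih =>
      have h0 : (e ^ (j+1))⁻¹ * d * e ^ (j+1) = e⁻¹ * ((e ^ j)⁻¹ * d * e ^ j) * e := by
        rw [pow_succ]; simp only [mul_inv_rev, mul_assoc]
      rw [h0, ih]
      have h3 : c ^ j * e = e * c ^ j := (hce.pow_left j).eq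
      calc e⁻¹ * (d * c ^ j) * e = e⁻¹ * d * (c ^ j * e) := by simp only [mul_assoc]
        _ = e⁻¹ * d * (e * c ^ j) := by rw [h3]
        _ = (e⁻¹ * d * e) * c ^ j := by simp only [mul_assoc]
        _ = d * c * c ^ j := by rw [h1]
        _ = d * c ^ (j+1) := by rw [pow_succ', mul_assoc]
  have h4 : c ^ m = 1 := by
    have h := h2 m
    rw [he] at h
    simpa using h
  have h5 : c = 1 := by
    have h6 : c ^ (Nat.gcd m (2 ^ k)) = 1 := pow_gcd_eq_one.mpr ⟨h4, hk⟩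
    have h7 : Nat.gcd m (2 ^ k) = 1 := Nat.Coprime.pow_right k (Nat.coprime_two_right.mpr hm)
    rwa [h7, pow_one] at h6
  rw [h5, mul_one] at h1
  calc d * e = e * (e⁻¹ * d * e) := by group
    _ = e * d := by rw [h1]

theorem le_nm {G : Type} [Group G] (S K : Subgroup G) (h : ∀ g ∈ S, ∀ k ∈ K, g * k * g⁻¹ ∈ K) :
    S ≤ Nm K := by
  intro g hg
  show g ∈ normalizer (K : Set G)
  rw [mem_normalizer_iff]
  intro k
  constructor
  · intro hk
    exact h g hg k hk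
  · intro hk
    have h3 := h g⁻¹ (S.inv_mem hg) _ hk
    have h4 : g⁻¹ * (g * k * g⁻¹) * g⁻¹⁻¹ = k := by group
    rwa [h4] at h3

theorem c13 (h2 : S_B2) (h5 : S_B5) (h13 : S_B13) (c4 : S_C4) (c6 : S_C6) : S_C13 := by
  intro G _ _ P hEnv E hEn hE2 e m hm he d hd
  by_contra hcon
  obtain ⟨M, D, hchief, hD2, hbad, hMe, hcen, hx4⟩ := h13 G ⟨E, hEn, hE2, d, e, m, hd, hm, he, hcon⟩
  obtain ⟨hMn, hDn, hMD, hmax⟩ := hchief
  obtain ⟨d₀, e₀, m₀, hd₀, hm₀, he₀, hne₀⟩ := hbad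
  have hpow : ∀ x ∈ D, ∃ k : ℕ, x ^ (2 ^ k) = 1 := by
    intro x hx
    obtain ⟨k, hk⟩ := hD2 ⟨x, hx⟩
    refine ⟨k, ?_⟩
    have := congrArg Subtype.val hk
    simpa using this
  -- minimal normal subgroups have order 2
  have hmin2 : ∀ T : Subgroup G, Q2.PM.IsMin T → Nat.card T = 2 := by
    intro T hT
    rcases c4 2 G P T hEnv hT with h | h
    · simpa using h
    · exact absurd h (c6 2 G P T hEnv hT)
  have hMbot : M ≠ ⊥ := by
    intro hM
    have hDbot : D ≠ ⊥ := by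
      intro h
      rw [hM, h] at hMD
      exact lt_irrefl _ hMD
    have hDmin : Q2.PM.IsMin D := by
      refine ⟨hDn, hDbot, hD2, ?_⟩
      intro L hL hLD
      have h := hmax L hL (hM ▸ bot_le) hLD
      rwa [hM] at h
    have hc2 := hmin2 D hDmin
    obtain ⟨y, hy1, hy2⟩ := (Nat.card_eq_two_iff' (1 : D)).mp hc2
    have hd1 : d₀ ≠ 1 := by
      intro h
      apply hne₀
      rw [h, one_mul, mul_one]
    have hy3 : (⟨d₀, hd₀⟩ : D) = y := by
      apply hy2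
      intro h
      exact hd1 (congrArg Subtype.val h)
    have hcj : e₀ * d₀ * e₀⁻¹ ∈ D := hDn.conj_mem d₀ hd₀ e₀
    have hy4 : (⟨e₀ * d₀ * e₀⁻¹, hcj⟩ : D) = y := by
      apply hy2
      intro h
      have h3 : e₀ * d₀ * e₀⁻¹ = 1 := congrArg Subtype.val h
      exact hd1 (conj_eq_one_iff.mp h3)
    have h3 : d₀ = e₀ * d₀ * e₀⁻¹ := congrArg Subtype.val (hy3.trans hy4.symm)
    apply hne₀
    calc d₀ * e₀ = (e₀ * d₀ * e₀⁻¹) * e₀ := by rw [← h3]
      _ = e₀ * d₀ := by group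
  obtain ⟨x, hxD, hxM, hxx, hxP⟩ := h2 G M D P hMn hDn hMD hD2 hEnv.syl.1
  have hxcom : ∀ y ∈ M, x * y = y * x := fun y hy => (hcen y hy x hxD).symm
  let K : Subgroup G :=
    { carrier := {g | g ∈ M ∨ x⁻¹ * g ∈ M}
      mul_mem' := by
        rintro a b ha hb
        rcases ha with ha | ha <;> rcases hb with hb | hb
        · exact Or.inl (M.mul_mem ha hb)
        · right
          have h3 : x⁻¹ * (a * b) = (x⁻¹ * a * x⁻¹⁻¹) * (x⁻¹ * b) := by group
          rw [h3]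
          exact M.mul_mem (hMn.conj_mem a ha x⁻¹) hb
        · right
          have h3 : x⁻¹ * (a * b) = (x⁻¹ * a) * b := by group
          rw [h3]
          exact M.mul_mem ha hb
        · left
          have h3 : a * b = (x * x) * ((x⁻¹ * (x⁻¹ * a) * x⁻¹⁻¹) * (x⁻¹ * b)) := by group
          rw [h3]
          exact M.mul_mem hxx (M.mul_mem (hMn.conj_mem _ ha x⁻¹) hb)
      one_mem' := Or.inl M.one_mem
      inv_mem' := by
        rintro a ha
        rcases ha with ha | ha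
        · exact Or.inl (M.inv_mem ha)
        · right
          have h3 : x⁻¹ * a⁻¹ = (x * x)⁻¹ * (x * (x⁻¹ * a) * x⁻¹)⁻¹ := by group
          rw [h3]
          exact M.mul_mem (M.inv_mem hxx) (M.inv_mem (hMn.conj_mem _ ha x)) }
  have hKmem : ∀ g : G, g ∈ K ↔ (g ∈ M ∨ x⁻¹ * g ∈ M) := fun g => Iff.rfl
  have hMK : M ≤ K := fun g hg => Or.inl hg
  have hxK : x ∈ K := Or.inr (by rw [inv_mul_cancel]; exact M.one_mem)
  have hKD : K ≤ D := by
    intro g hg
    rcases hg with hg | hg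
    · exact hMD.le hg
    · have h3 : g = x * (x⁻¹ * g) := by group
      rw [h3]
      exact D.mul_mem hxD (hMD.le hg)
  -- if g x g⁻¹ ∈ K then g K g⁻¹ ≤ K
  have hconj : ∀ g : G, g * x * g⁻¹ ∈ K → ∀ k ∈ K, g * k * g⁻¹ ∈ K := by
    intro g hg k hk
    rcases hk with hk | hk
    · exact hMK (hMn.conj_mem k hk g)
    · have h3 : g * k * g⁻¹ = (g * x * g⁻¹) * (g * (x⁻¹ * k) * g⁻¹) := by group
      rw [h3]
      exact K.mul_mem hg (hMK (hMn.conj_mem _ hk g))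
  have hPK : P ≤ Nm K := by
    apply le_nm
    intro y hy k hk
    apply hconj y _ k hk
    have h3 : y * x * y⁻¹ = (y * x * y⁻¹ * x⁻¹) * x := by group
    rw [h3]
    exact K.mul_mem (hMK (hxP y hy)) hxK
  -- orders
  have hK2 : IsPGroup 2 K := hD2.to_le hKD
  have hzK : zpowers x ≤ K := by
    rw [zpowers_le]
    exact hxK
  have hzc : Nat.card (zpowers x) ≤ 2 ^ 2 := by
    rw [Nat.card_zpowers]
    have h3 : orderOf x ∣ 4 := orderOf_dvd_of_pow_eq_one (hx4 x hxD)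
    exact Nat.le_of_dvd (by norm_num) h3
  have hKc : 2 ^ 2 ≤ Nat.card K := by
    have h3 : 1 < Nat.card M := (one_lt_card_iff_ne_bot M).mpr hMbot
    obtain ⟨j, hj⟩ := card_dvd_of_le hMK
    have hKpos : 0 < Nat.card K := Nat.card_pos
    have hj0 : j ≠ 0 := by
      rintro rfl
      rw [mul_zero] at hj
      omega
    have hj1 : j ≠ 1 := by
      rintro rfl
      rw [mul_one] at hj
      have h4 : M = K := eq_of_le_of_card_ge hMK hj.le
      apply hxM
      rw [h4]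
      exact hxK
    have hj2 : 2 ≤ j := by omega
    rw [hj]
    calc 2 ^ 2 = 2 * 2 := by norm_num
      _ ≤ Nat.card M * j := Nat.mul_le_mul h3 hj2
  obtain ⟨H, hzH, hHK, hHc⟩ := h5 2 G (zpowers x) K hzK hK2 hzc hKc
  have hHD : H ≤ D := hHK.trans hKD
  have hDP : D ≤ P := by
    have := hDn
    have h3 := hD2.le_sylow_of_normal (hEnv.syl.1.toSylow hEnv.syl.2)
    rwa [IsPGroup.toSylow_coe] at h3
  have hxH : x ∈ H := hzH (mem_zpowers x)
  have hNH : Nm (H ⊓ D) ≤ Nm K := by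
    have h3 : H ⊓ D = H := inf_eq_left.mpr hHD
    rw [h3]
    apply le_nm
    intro g hg k hk
    apply hconj g _ k hk
    apply hHK
    have h4 : g ∈ normalizer (H : Set G) := hg
    rw [mem_normalizer_iff] at h4
    exact (h4 x).mp hxH
  have htop : Nm K = ⊤ := hEnv.gen H D (Nm K) (hHD.trans hDP) hHc hDn hD2 hPK hNH
  have hKn : K.Normal := normalizer_eq_top_iff.mp htop
  have hKeq : K = D := by
    rcases hmax K hKn hMK hKD with h | h
    · exfalso
      apply hxM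
      rw [← h]
      exact hxK
    · exact h
  -- x commutes with e₀
  have hcD : e₀⁻¹ * x * e₀ ∈ K := by
    rw [hKeq]
    have h3 : e₀⁻¹ * x * e₀⁻¹⁻¹ ∈ D := hDn.conj_mem x hxD e₀⁻¹
    rwa [inv_inv] at h3
  have hcM : x⁻¹ * e₀⁻¹ * x * e₀ ∈ M := by
    rcases hcD with h | h
    · exfalso
      apply hxM
      have h3 := hMn.conj_mem _ h e₀
      have h4 : e₀ * (e₀⁻¹ * x * e₀) * e₀⁻¹ = x := by group
      rwa [h4] at h3
    · have h4 : x⁻¹ * e₀⁻¹ * x * e₀ = x⁻¹ * (e₀⁻¹ * x * e₀) := by group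
      rw [h4]
      exact h
  have hxe : x * e₀ = e₀ * x := by
    obtain ⟨k, hk⟩ := hpow _ (hMD.le hcM)
    exact lemA x e₀ m₀ k hm₀ he₀ (hMe e₀ m₀ hm₀ he₀ _ hcM) hk
  apply hne₀
  have hd₀K : d₀ ∈ K := by rw [hKeq]; exact hd₀
  rcases hd₀K with h | h
  · exact hMe e₀ m₀ hm₀ he₀ _ h
  · have h3 : (x⁻¹ * d₀) * e₀ = e₀ * (x⁻¹ * d₀) := hMe e₀ m₀ hm₀ he₀ _ h
    calc d₀ * e₀ = x * ((x⁻¹ * d₀) * e₀) := by group
      _ = x * (e₀ * (x⁻¹ * d₀)) := by rw [h3]
      _ = (x * e₀) * (x⁻¹ * d₀) := by group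
      _ = (e₀ * x) * (x⁻¹ * d₀) := by rw [hxe]
      _ = e₀ * d₀ := by group

end Q295.PM_C13
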