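import Pool.Agent.Q61.BS.Stm

set_option autoImplicit false

open MeasureTheory Set Filter Topology Real

noncomputable section

namespace Pool.Agent.Q295.BS_CNT

open Pool.Agent.Q61.BS

theorem prod_val (x : ℝ) (ω : ℕ → Fin 4) (n : ℕ) : ∀ m : ℕ, n ≤ m →
    ∏ k ∈ Finset.range m, (if ω k = 0 then x else (if k < n then (1 - x) / 3 else 1 - x)) =
      x ^ zc ω m * (1 - x) ^ (m - zc ω m) * (1 / 3) ^ (n - zc ω n) := by
  have hz : ∀ n, zc ω n ≤ n := by
    intro n
    unfold zc
    exact (Finset.card_filter_le _ _).trans (by simp)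
  have hs : ∀ n, zc ω (n + 1) = zc ω n + (if ω n = 0 then 1 else 0) := by
    intro n
    unfold zc
    rw [Finset.range_add_one, Finset.filter_insert]
    by_cases h : ω n = 0
    · rw [if_pos h, if_pos h, Finset.card_insert_of_notMem (by simp)]
    · rw [if_neg h, if_neg h, add_zero]
  have h1 : ∀ m : ℕ, m ≤ n → ∏ k ∈ Finset.range m,
      (if ω k = 0 then x else (if k < n then (1 - x) / 3 else 1 - x)) =
      x ^ zc ω m * ((1 - x) / 3) ^ (m - zc ω m) := by
    intro m
    induction m with
    | zero => intro _; simp [zc]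
    | succ m ih =>
      intro hm
      rw [Finset.prod_range_succ, ih (by omega), hs, if_pos (show m < n by omega)]
      have := hz m
      by_cases h : ω m = 0
      · rw [if_pos h, if_pos h, Nat.add_sub_add_right, pow_succ]; ring
      · rw [if_neg h, if_neg h, add_zero, Nat.succ_sub this, pow_succ]; ring
  intro m hm
  induction m, hm using Nat.le_induction with
  | base =>
    rw [h1 n le_rfl, div_pow, one_div, inv_pow]
    ring
  | succ m hm ih =>
    rw [Finset.prod_range_succ, ih, hs, if_neg (show ¬ m < n by omega)]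
    have := hz m
    by_cases h : ω m = 0
    · rw [if_pos h, if_pos h, Nat.add_sub_add_right, pow_succ]; ring
    · rw [if_neg h, if_neg h, add_zero, Nat.succ_sub this, pow_succ]; ring

theorem pow_exp (a : ℕ) (y : ℝ) (h : a ≠ 0 → 0 < y) : y ^ a = exp (a * log y) := by
  by_cases ha : a = 0
  · simp [ha]
  · rw [← log_pow, exp_log (pow_pos (h ha) a)]

theorem ex_val {m : ℕ} (τ : Fin m → Fin 4) (k : Fin m) : ex τ k = τ k := by
  unfold ex
  rw [dif_pos k.2]

/-- the weights -/
def wt (x : ℝ) (n k : ℕ) (j : Fin 4) : ℝ :=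
  if j = 0 then x else (if k < n then (1 - x) / 3 else (if j = 1 then 1 - x else 0))

theorem wt_nonneg (x : ℝ) (h0 : 0 ≤ x) (h1 : x ≤ 1) (n k : ℕ) (j : Fin 4) : 0 ≤ wt x n k j := by
  unfold wt
  split_ifs <;> linarith

theorem wt_sum (x : ℝ) (n k : ℕ) : ∑ j : Fin 4, wt x n k j = 1 := by
  rw [Fin.sum_univ_four]
  unfold wt
  by_cases h : k < n
  · simp [h]; ring
  · simp [h]

theorem cnt : S_cnt := by
  classical
  intro n m i i' hnm hm
  have hz : ∀ (ω : ℕ → Fin 4) n, zc ω n ≤ n := by
    intro ω n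
    unfold zc
    exact (Finset.card_filter_le _ _).trans (by simp)
  set P : (Fin m → Fin 4) → Prop := fun τ => zc (ex τ) n = i ∧ zc (ex τ) m = i' ∧
    ∀ k, n ≤ k → k < m → (ex τ k = 0 ∨ ex τ k = 1) with hP
  by_cases hne : ∃ τ, P τ
  swap
  · have : IsEmpty {τ : Fin m → Fin 4 // P τ} := ⟨fun τ => hne ⟨τ.1, τ.2⟩⟩
    have h0 : Nat.card {τ : Fin m → Fin 4 // P τ} = 0 := Nat.card_of_isEmpty
    rw [h0]
    push_cast
    exact (exp_pos _).le
  obtain ⟨τ₀, h1, h2, -⟩ := hne
  have hi : i ≤ n := h1 ▸ hz _ _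
  have hi' : i' ≤ m := h2 ▸ hz _ _
  have hm0 : (0 : ℝ) < m := by exact_mod_cast hm
  set x : ℝ := (i' : ℝ) / m with hx
  have hx0 : 0 ≤ x := by positivity
  have hx1 : x ≤ 1 := by
    rw [hx, div_le_one hm0]
    exact_mod_cast hi'
  have hval : x ^ i' * (1 - x) ^ (m - i') * (1 / 3) ^ (n - i) =
      exp (-(m * binEntropy x + ((n : ℝ) - i) * log 3)) := by
    have e1 : x ^ i' = exp (i' * log x) := by
      apply pow_exp
      intro h
      have : (0 : ℝ) < i' := by exact_mod_cast Nat.pos_of_ne_zero h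
      positivity
    have e2 : (1 - x) ^ (m - i') = exp ((m - i' : ℕ) * log (1 - x)) := by
      apply pow_exp
      intro h
      have h3 : i' < m := by omega
      have h4 : x < 1 := by
        rw [hx, div_lt_one hm0]
        exact_mod_cast h3
      linarith
    have e3 : (1 / 3 : ℝ) ^ (n - i) = exp ((n - i : ℕ) * log (1 / 3)) :=
      pow_exp _ _ (fun _ => by norm_num)
    rw [e1, e2, e3, ← exp_add, ← exp_add]
    congr 1
    rw [binEntropy_eq_negMulLog_add_negMulLog_one_sub]
    unfold negMulLog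
    rw [Nat.cast_sub hi', Nat.cast_sub hi, one_div, log_inv]
    have : (m : ℝ) * x = i' := by
      rw [hx]
      field_simp
    have h5 : (m : ℝ) * (-x * log x + -(1 - x) * log (1 - x)) =
        -(i' * log x) - ((m : ℝ) - i') * log (1 - x) := by
      rw [← this]
      ring
    rw [h5]
    ring
  -- the sum of all weights
  have hsum : ∑ τ : Fin m → Fin 4, ∏ k : Fin m, wt x n k (τ k) = 1 := by
    have := Finset.prod_univ_sum (fun _ : Fin m => (Finset.univ : Finset (Fin 4)))
      (fun k j => wt x n (k : ℕ) j)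
    rw [Fintype.piFinset_univ] at this
    rw [← this]
    exact Finset.prod_eq_one (fun k _ => wt_sum x n k)
  have hP1 : ∀ τ : Fin m → Fin 4, P τ → ∏ k : Fin m, wt x n k (τ k) =
      exp (-(m * binEntropy x + ((n : ℝ) - i) * log 3)) := by
    rintro τ ⟨h3, h4, h5⟩
    rw [← hval]
    have h6 := prod_val x (ex τ) n m hnm
    rw [h3, h4] at h6
    rw [← h6, Finset.prod_range]
    refine Finset.prod_congr rfl (fun k _ => ?_)
    rw [ex_val]
    unfold wt
    by_cases h7 : τ k = 0
    · rw [if_pos h7, if_pos h7]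
    · rw [if_neg h7, if_neg h7]
      by_cases h8 : (k : ℕ) < n
      · rw [if_pos h8, if_pos h8]
      · rw [if_neg h8, if_neg h8]
        have h9 := h5 k (by omega) k.2
        rw [ex_val] at h9
        rw [if_pos (h9.resolve_left h7)]
  have hcard : (Nat.card {τ : Fin m → Fin 4 // P τ} : ℝ) *
      exp (-(m * binEntropy x + ((n : ℝ) - i) * log 3)) ≤ 1 := by
    rw [← hsum]
    have e1 : (Nat.card {τ : Fin m → Fin 4 // P τ} : ℝ) *
        exp (-(m * binEntropy x + ((n : ℝ) - i) * log 3)) =
        ∑ τ ∈ Finset.univ.filter P, ∏ k : Fin m, wt x n k (τ k) := by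
      rw [Finset.sum_congr rfl (fun τ hτ => hP1 τ (Finset.mem_filter.mp hτ).2), Finset.sum_const,
        nsmul_eq_mul, Nat.card_eq_fintype_card, Fintype.card_subtype]
    rw [e1]
    exact Finset.sum_le_sum_of_subset_of_nonneg (Finset.filter_subset _ _)
      (fun τ _ _ => Finset.prod_nonneg (fun k _ => wt_nonneg x hx0 hx1 n k _))
  rw [exp_neg] at hcard
  have hpos := exp_pos ((m : ℝ) * binEntropy x + ((n : ℝ) - i) * log 3)
  have := mul_le_mul_of_nonneg_right hcard hpos.le
  rw [mul_assoc, inv_mul_cancel₀ hpos.ne', mul_one, one_mul] at this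
  exact this

end Pool.Agent.Q295.BS_CNT
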