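import Pool.Agent.Q61.BS.Stm

set_option autoImplicit false

open MeasureTheory Set Filter Topology Real

noncomputable section

namespace Pool.Agent.Q295.BS_EST

open Pool.Agent.Q61.BS

theorem zc_le (ω : ℕ → Fin 4) (n : ℕ) : zc ω n ≤ n := by
  unfold zc
  exact (Finset.card_filter_le _ _).trans (by simp)

theorem zc_mul (ω : ℕ → Fin 4) (n : ℕ) : (zc ω n : ℝ) = (zc ω n : ℝ) / n * n := by
  by_cases h : n = 0
  · subst h
    have := zc_le ω 0
    have h0 : zc ω 0 = 0 := by omega
    simp [h0]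
  · have : (n : ℝ) ≠ 0 := by exact_mod_cast h
    field_simp

theorem est (h : S_hgt) : S_est := by
  intro β₁ β₂ hβ1 hβ2 x hx ω hω s hs hsF
  obtain ⟨hx0, hx1⟩ := hx
  have hL : (0 : ℝ) < log 5 := log_pos (by norm_num)
  set L := log 5 with hLdef
  set χ := x * β₁ + (1 - x) * β₂ with hχ
  have hχL : L < χ := by
    rw [hχ]
    have h1 : x * L < x * β₁ := mul_lt_mul_of_pos_left hβ1 hx0
    have h2 : (1 - x) * L < (1 - x) * β₂ := mul_lt_mul_of_pos_left hβ2 (by linarith)
    have h3 : x * L + (1 - x) * L = L := by ring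
    linarith
  have hχ0 : 0 < χ := hL.trans hχL
  -- choose η
  obtain ⟨η, hη, hF⟩ : ∃ η : ℝ, 0 < η ∧ s < binEntropy x / (L + η) + (1 - x) * log 3 / (χ + η) := by
    have hc : ContinuousAt (fun η : ℝ => binEntropy x / (L + η) + (1 - x) * log 3 / (χ + η)) 0 := by
      apply ContinuousAt.add
      · apply ContinuousAt.div continuousAt_const (by fun_prop)
        simp only [add_zero]
        exact hL.ne'
      · apply ContinuousAt.div continuousAt_const (by fun_prop)
        simp only [add_zero]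
        exact hχ0.ne'
    have h0 : s < (fun η : ℝ => binEntropy x / (L + η) + (1 - x) * log 3 / (χ + η)) 0 := by
      simp only [add_zero]
      exact hsF
    have h1 : ∀ᶠ η in 𝓝 (0 : ℝ), s < binEntropy x / (L + η) + (1 - x) * log 3 / (χ + η) :=
      hc.eventually (lt_mem_nhds h0)
    have h2 := (h1.filter_mono (nhdsWithin_le_nhds (s := Ioi (0 : ℝ)))).and self_mem_nhdsWithin
    obtain ⟨η, h3, h4⟩ := h2.exists
    exact ⟨η, h4, h3⟩
  have hLη : 0 < L + η := by linarith
  have hχη : 0 < χ + η := by linarith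
  set a : ℝ := 1 / (L + η) with ha
  set b : ℝ := 1 / (χ + η) with hb
  have ha0 : 0 < a := by positivity
  have hb0 : 0 < b := by positivity
  have hba : b ≤ a := one_div_le_one_div_of_le hLη (by linarith)
  let M : ℝ → ℕ := fun R => ⌊a * R⌋₊
  let N : ℝ → ℕ := fun R => ⌊b * R⌋₊
  have hM1 : Tendsto (fun R : ℝ => (M R : ℝ) / R) atTop (𝓝 a) := tendsto_nat_floor_mul_div_atTop ha0.le
  have hN1 : Tendsto (fun R : ℝ => (N R : ℝ) / R) atTop (𝓝 b) := tendsto_nat_floor_mul_div_atTop hb0.le
  have hMt : Tendsto M atTop atTop :=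
    tendsto_nat_floor_atTop.comp (tendsto_id.const_mul_atTop ha0)
  have hNt : Tendsto N atTop atTop :=
    tendsto_nat_floor_atTop.comp (tendsto_id.const_mul_atTop hb0)
  have hzM : Tendsto (fun R => (zc ω (M R) : ℝ) / (M R)) atTop (𝓝 x) := hω.comp hMt
  have hzN : Tendsto (fun R => (zc ω (N R) : ℝ) / (N R)) atTop (𝓝 x) := hω.comp hNt
  -- the exponent
  let G : ℝ → ℝ := fun R => (zc ω (M R) : ℝ) * log x + ((M R : ℝ) - zc ω (M R)) * log (1 - x) -
    ((N R : ℝ) - zc ω (N R)) * log 3
  have hG : Tendsto (fun R => G R / R + s * log 20 / R) atTop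
      (𝓝 (x * a * log x + (1 - x) * a * log (1 - x) - (1 - x) * b * log 3 + 0)) := by
    apply Tendsto.add
    · have h1 : Tendsto (fun R => (zc ω (M R) : ℝ) / (M R) * ((M R : ℝ) / R) * log x +
          (1 - (zc ω (M R) : ℝ) / (M R)) * ((M R : ℝ) / R) * log (1 - x) -
          (1 - (zc ω (N R) : ℝ) / (N R)) * ((N R : ℝ) / R) * log 3) atTop
          (𝓝 (x * a * log x + (1 - x) * a * log (1 - x) - (1 - x) * b * log 3)) :=
        (((hzM.mul hM1).mul_const _).add (((tendsto_const_nhds.sub hzM).mul hM1).mul_const _)).sub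
          (((tendsto_const_nhds.sub hzN).mul hN1).mul_const _)
      refine h1.congr (fun R => ?_)
      have e1 := zc_mul ω (M R)
      have e2 := zc_mul ω (N R)
      simp only [G]
      set z := (zc ω (M R) : ℝ) / (M R) with hz
      set z' := (zc ω (N R) : ℝ) / (N R) with hz'
      rw [e1, e2]
      ring
    · exact tendsto_const_nhds.div_atTop tendsto_id
  have hlim : x * a * log x + (1 - x) * a * log (1 - x) - (1 - x) * b * log 3 + 0 < -s := by
    have e : binEntropy x / (L + η) + (1 - x) * log 3 / (χ + η) =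
        -(x * a * log x + (1 - x) * a * log (1 - x) - (1 - x) * b * log 3 + 0) := by
      rw [binEntropy_eq_negMulLog_add_negMulLog_one_sub, ha, hb]
      unfold negMulLog
      field_simp
      ring
    linarith
  have hev1 : ∀ᶠ R in atTop, G R / R + s * log 20 / R < -s := hG.eventually (gt_mem_nhds hlim)
  have hev2 : ∀ᶠ R in atTop, 1 ≤ M R := hMt.eventually (eventually_ge_atTop 1)
  have hev3 : ∀ᶠ R in atTop, 1 ≤ N R := hNt.eventually (eventually_ge_atTop 1)
  have hev4 : ∀ᶠ R in atTop, (zc ω (N R) : ℝ) / (N R) * β₁ + (1 - (zc ω (N R) : ℝ) / (N R)) * β₂ <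
      χ + η := by
    have h1 : Tendsto (fun R => (zc ω (N R) : ℝ) / (N R) * β₁ +
        (1 - (zc ω (N R) : ℝ) / (N R)) * β₂) atTop (𝓝 (x * β₁ + (1 - x) * β₂)) :=
      (hzN.mul_const _).add ((tendsto_const_nhds.sub hzN).mul_const _)
    exact h1.eventually (gt_mem_nhds (by rw [← hχ]; linarith))
  obtain ⟨R₀, hR₀⟩ := (((hev1.and hev2).and (hev3.and hev4)).and (eventually_gt_atTop 0)).exists_forall_of_atTop
  refine ⟨exp (-R₀) / 20, by positivity, fun ρ hρ hρ0 => ?_⟩
  set R : ℝ := -log (20 * ρ) with hR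
  have h20 : 0 < 20 * ρ := by positivity
  have hRR : R₀ ≤ R := by
    rw [hR, le_neg]
    have h1 : 20 * ρ < exp (-R₀) := by
      have := (lt_div_iff₀ (by norm_num : (0 : ℝ) < 20)).mp hρ0
      linarith
    have h2 := log_lt_log h20 h1
    rw [log_exp] at h2
    exact h2.le
  obtain ⟨⟨⟨h1, h2⟩, h3, h4⟩, h5⟩ := hR₀ R hRR
  have hρR : ρ = 1 / 20 * exp (-R) := by
    rw [hR, neg_neg, exp_log h20]
    ring
  have hlogρ : log ρ = -(R + log 20) := by
    rw [hR, log_mul (by norm_num) hρ.ne']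
    ring
  have hM2 : (M R : ℝ) * (L + η) ≤ R := by
    have : (M R : ℝ) ≤ a * R := Nat.floor_le (by positivity)
    rw [ha] at this
    calc (M R : ℝ) * (L + η) ≤ (1 / (L + η) * R) * (L + η) :=
          mul_le_mul_of_nonneg_right this hLη.le
      _ = R := by field_simp
  have hN2 : (N R : ℝ) * (χ + η) ≤ R := by
    have : (N R : ℝ) ≤ b * R := Nat.floor_le (by positivity)
    rw [hb] at this
    calc (N R : ℝ) * (χ + η) ≤ (1 / (χ + η) * R) * (χ + η) :=
          mul_le_mul_of_nonneg_right this hχη.le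
      _ = R := by field_simp
  have hM3 : (1 : ℝ) ≤ M R := by exact_mod_cast h2
  have hN3 : (1 : ℝ) ≤ N R := by exact_mod_cast h3
  refine ⟨N R, M R, Nat.floor_le_floor (mul_le_mul_of_nonneg_right hba h5.le), ?_, ?_, ?_⟩
  · have e : (1 / 5 : ℝ) ^ (M R) = exp (-(M R * L)) := by
      rw [exp_neg, hLdef, mul_comm, exp_mul, exp_log (by norm_num), rpow_natCast, one_div, inv_pow]
    rw [e, hρR]
    have : (M R : ℝ) * L < R := by nlinarith
    have h6 : exp (-R) < exp (-(M R * L)) := exp_lt_exp.mpr (by linarith)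
    linarith
  · rw [(h β₁ β₂ ω (N R)).2, hρR]
    have h6 : sc β₁ β₂ (N R) (zc ω (N R)) < R := by
      have e1 := zc_mul ω (N R)
      have e2 : sc β₁ β₂ (N R) (zc ω (N R)) = (N R : ℝ) * ((zc ω (N R) : ℝ) / (N R) * β₁ +
          (1 - (zc ω (N R) : ℝ) / (N R)) * β₂) := by
        unfold sc
        set z' := (zc ω (N R) : ℝ) / (N R) with hz'
        rw [e1]
        ring
      rw [e2]
      calc _ < (N R : ℝ) * (χ + η) := mul_lt_mul_of_pos_left h4 (by linarith)
        _ ≤ R := hN2
    have h7 : exp (-R) < exp (-sc β₁ β₂ (N R) (zc ω (N R))) := exp_lt_exp.mpr (by linarith)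
    linarith
  · have hzM' := zc_le ω (M R)
    have hzN' := zc_le ω (N R)
    have e1 : x ^ zc ω (M R) * (1 - x) ^ (M R - zc ω (M R)) * (1 / 3) ^ (N R - zc ω (N R)) =
        exp (G R) := by
      have p1 : x ^ zc ω (M R) = exp (zc ω (M R) * log x) := by
        rw [← log_pow, exp_log (pow_pos hx0 _)]
      have p2 : (1 - x) ^ (M R - zc ω (M R)) = exp (((M R : ℝ) - zc ω (M R)) * log (1 - x)) := by
        rw [← Nat.cast_sub hzM', ← log_pow, exp_log (pow_pos (by linarith) _)]
      have p3 : (1 / 3 : ℝ) ^ (N R - zc ω (N R)) = exp (-(((N R : ℝ) - zc ω (N R)) * log 3)) := by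
        rw [← Nat.cast_sub hzN', ← mul_neg, ← log_inv, ← log_pow, exp_log (by positivity), one_div]
      rw [p1, p2, p3, ← exp_add, ← exp_add]
      rfl
    rw [e1, rpow_def_of_pos hρ]
    apply exp_le_exp.mpr
    rw [hlogρ]
    have h6 : G R + s * log 20 < -s * R := by
      have h7 : (G R + s * log 20) / R < -s := by
        rw [add_div]
        exact h1
      exact (div_lt_iff₀ h5).mp h7
    linarith

end Pool.Agent.Q295.BS_EST
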