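import Pool.Agent.Q61.BS.Stm

set_option autoImplicit false

open MeasureTheory Set Filter Topology Real ProbabilityTheory

noncomputable section

namespace Pool.Agent.Q295.BS_MEA

open Pool.Agent.Q61.BS

/-- the one-letter law -/
def pm (x : ℝ) : Measure (Fin 4) :=
  ENNReal.ofReal x • Measure.dirac 0 + ENNReal.ofReal ((1 - x) / 3) • Measure.dirac 1 +
    ENNReal.ofReal ((1 - x) / 3) • Measure.dirac 2 + ENNReal.ofReal ((1 - x) / 3) • Measure.dirac 3

theorem pm_apply (x : ℝ) (A : Set (Fin 4)) [DecidablePred (· ∈ A)] : pm x A =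
    (if (0 : Fin 4) ∈ A then ENNReal.ofReal x else 0) +
    (if (1 : Fin 4) ∈ A then ENNReal.ofReal ((1 - x) / 3) else 0) +
    (if (2 : Fin 4) ∈ A then ENNReal.ofReal ((1 - x) / 3) else 0) +
    (if (3 : Fin 4) ∈ A then ENNReal.ofReal ((1 - x) / 3) else 0) := by
  simp only [pm, Measure.add_apply, Measure.smul_apply, Measure.dirac_apply' _ (MeasurableSet.of_discrete),
    Set.indicator_apply, smul_eq_mul, Pi.one_apply, mul_ite, mul_one, mul_zero]

theorem pm_univ (x : ℝ) (hx : x ∈ Ioo (0 : ℝ) 1) : pm x univ = 1 := by
  classical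
  rw [pm_apply]
  simp only [mem_univ, if_true]
  obtain ⟨h0, h1⟩ := hx
  rw [← ENNReal.ofReal_add (by linarith) (by linarith), ← ENNReal.ofReal_add (by linarith) (by linarith),
    ← ENNReal.ofReal_add (by linarith) (by linarith)]
  rw [show x + (1 - x) / 3 + (1 - x) / 3 + (1 - x) / 3 = 1 by ring, ENNReal.ofReal_one]

/-- the letter sets of the box -/
def AA (ω : ℕ → Fin 4) (n k : ℕ) : Set (Fin 4) :=
  if k < n then {ω k} else {j | j = 0 ↔ ω k = 0}

theorem pm_AA (x : ℝ) (hx : x ∈ Ioo (0 : ℝ) 1) (ω : ℕ → Fin 4) (n k : ℕ) :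
    pm x (AA ω n k) = ENNReal.ofReal (if ω k = 0 then x else (if k < n then (1 - x) / 3 else 1 - x)) := by
  classical
  obtain ⟨h0, h1⟩ := hx
  rw [pm_apply]
  unfold AA
  by_cases hk : k < n
  · rw [if_pos hk]
    simp only [mem_singleton_iff, if_pos hk]
    generalize ω k = j
    fin_cases j <;> simp
  · rw [if_neg hk]
    simp only [mem_setOf_eq, if_neg hk]
    by_cases hw : ω k = 0
    · simp [hw]
    · simp [hw]
      rw [← ENNReal.ofReal_add (by linarith) (by linarith),
        ← ENNReal.ofReal_add (by linarith) (by linarith)]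
      congr 1
      ring

theorem prod_val (x : ℝ) (ω : ℕ → Fin 4) (n : ℕ) : ∀ m : ℕ, n ≤ m →
    ∏ k ∈ Finset.range m, (if ω k = 0 then x else (if k < n then (1 - x) / 3 else 1 - x)) =
      x ^ zc ω m * (1 - x) ^ (m - zc ω m) * (1 / 3) ^ (n - zc ω n) := by
  have hz : ∀ n, zc ω n ≤ n := by
    intro n
    unfold zc
    exact (Finset.card_filter_le _ _).trans (by simp)
  have hs : ∀ n, zc ω (n + 1) = zc ω n + (if ω n = 0 then 1 else 0) := by
    intro n
    unfold zc
    rw [Finset.range_add_one, Finset.filter_insert]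
    by_cases h : ω n = 0
    · rw [if_pos h, if_pos h, Finset.card_insert_of_notMem (by simp)]
    · rw [if_neg h, if_neg h, add_zero]
  -- the case n = m
  have h1 : ∀ m : ℕ, m ≤ n → ∏ k ∈ Finset.range m,
      (if ω k = 0 then x else (if k < n then (1 - x) / 3 else 1 - x)) =
      x ^ zc ω m * ((1 - x) / 3) ^ (m - zc ω m) := by
    intro m
    induction m with
    | zero => intro _; simp [zc]
    | succ m ih =>
      intro hm
      rw [Finset.prod_range_succ, ih (by omega), hs, if_pos (show m < n by omega)]
      have := hz m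
      by_cases h : ω m = 0
      · rw [if_pos h, if_pos h, Nat.add_sub_add_right, pow_succ]; ring
      · rw [if_neg h, if_neg h, add_zero, Nat.succ_sub this, pow_succ]; ring
  intro m hm
  induction m, hm using Nat.le_induction with
  | base =>
    rw [h1 n le_rfl, div_pow, one_div, inv_pow]
    ring
  | succ m hm ih =>
    rw [Finset.prod_range_succ, ih, hs, if_neg (show ¬ m < n by omega)]
    have := hz m
    by_cases h : ω m = 0
    · rw [if_pos h, if_pos h, Nat.add_sub_add_right, pow_succ]; ring
    · rw [if_neg h, if_neg h, add_zero, Nat.succ_sub this, pow_succ]; ring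

end Pool.Agent.Q295.BS_MEA

namespace Pool.Agent.Q295.BS_MEA

open Pool.Agent.Q61.BS

theorem mea : S_mea := by
  classical
  intro x hx
  haveI : IsProbabilityMeasure (pm x) := ⟨pm_univ x hx⟩
  refine ⟨Measure.infinitePi (fun _ : ℕ => pm x), inferInstance, ?_, ?_⟩
  · intro ω n m hnm
    have e1 : {ω' : ℕ → Fin 4 | (∀ k < n, ω' k = ω k) ∧ ∀ k < m, (ω' k = 0 ↔ ω k = 0)} =
        Set.pi (Finset.range m : Set ℕ) (fun k => AA ω n k) := by
      ext ω'
      simp only [mem_setOf_eq, Set.mem_pi, Finset.coe_range, mem_Iio, AA]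
      constructor
      · rintro ⟨h1, h2⟩ k hk
        by_cases hkn : k < n
        · rw [if_pos hkn]; exact h1 k hkn
        · rw [if_neg hkn]; exact h2 k hk
      · intro h
        refine ⟨fun k hk => ?_, fun k hk => ?_⟩
        · have := h k (by omega)
          rw [if_pos hk] at this
          exact this
        · have := h k hk
          by_cases hkn : k < n
          · rw [if_pos hkn] at this
            rw [show ω' k = ω k from this]
          · rw [if_neg hkn] at this
            exact this
    rw [e1, Measure.infinitePi_pi _ (fun i _ => MeasurableSet.of_discrete),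
      Finset.prod_congr rfl (fun k _ => pm_AA x hx ω n k),
      ← ENNReal.ofReal_prod_of_nonneg, prod_val x ω n m hnm]
    intro k _
    obtain ⟨h0, h1⟩ := hx
    split_ifs <;> linarith
  · set μ := Measure.infinitePi (fun _ : ℕ => pm x) with hμ
    let X : ℕ → (ℕ → Fin 4) → ℝ := fun k ω => if ω k = 0 then 1 else 0
    let g : Fin 4 → ℝ := fun j => if j = 0 then 1 else 0
    have hg : Measurable g := measurable_of_finite g
    have hX : ∀ k, Measurable (X k) := fun k => hg.comp (measurable_pi_apply k)
    have hind : iIndepFun X μ := by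
      have := iIndepFun_infinitePi (P := fun _ : ℕ => pm x) (X := fun _ : ℕ => g) (fun _ => hg)
      exact this
    have hident : ∀ i, IdentDistrib (X i) (X 0) μ μ := by
      intro i
      refine ⟨(hX i).aemeasurable, (hX 0).aemeasurable, ?_⟩
      have e : ∀ i, Measure.map (X i) μ = Measure.map g (pm x) := by
        intro i
        rw [show X i = g ∘ (fun ω : ℕ → Fin 4 => ω i) from rfl,
          ← Measure.map_map hg (measurable_pi_apply i), hμ]
        congr 1
        exact Measure.infinitePi_map_eval (fun _ : ℕ => pm x) i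
      rw [e i, e 0]
    have hint : Integrable (X 0) μ := by
      refine Integrable.of_bound (hX 0).aestronglyMeasurable 1 (ae_of_all _ fun ω => ?_)
      simp only [X]
      split_ifs <;> simp
    have hmean : μ[X 0] = x := by
      have e1 : Measure.map (fun ω : ℕ → Fin 4 => ω 0) μ = pm x :=
        Measure.infinitePi_map_eval (fun _ : ℕ => pm x) 0
      have e2 : ∫ ω, X 0 ω ∂μ = ∫ j, g j ∂(pm x) := by
        rw [← e1, integral_map (measurable_pi_apply 0).aemeasurable hg.aestronglyMeasurable]
      rw [e2]
      have e3 : g = Set.indicator {(0 : Fin 4)} (fun _ => (1 : ℝ)) := by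
        funext j
        simp [g, Set.indicator_apply]
      rw [e3, integral_indicator MeasurableSet.of_discrete, integral_const, smul_eq_mul, mul_one,
        Measure.real, Measure.restrict_apply_univ, pm_apply]
      simp [hx.1.le]
    have hlaw := strong_law_ae_real X hint (fun i j hij => hind.indepFun hij) hident
    filter_upwards [hlaw] with ω hω
    rw [hmean] at hω
    refine hω.congr (fun n => ?_)
    congr 1
    simp only [X, zc]
    rw [Finset.card_filter]
    push_cast
    rfl

end Pool.Agent.Q295.BS_MEA
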