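import Pool.Agent.Q88.MD.Stm

/-! JOB CNV of the project MD. -/

set_option autoImplicit false

open Set Filter Topology

namespace Pool.Agent.Q295.MD

open Pool.Agent.Q88.MD

theorem cnv (h : S_inv) : S_cnv := by
  intro g lam q hg hlam hq hz
  obtain ⟨hza, -, hst⟩ := h g lam q hg hlam hq
  have hl1 : 0 < lam - 1 := by linarith
  have hl0 : 0 < lam := by linarith
  set zs : ℝ := q - g with hzs
  have hzs0 : 0 < zs := by rw [hzs]; linarith
  have hzl : lam * zs = zs + g := by
    rw [div_eq_iff hl1.ne'] at hz
    linarith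
  set ρ : ℝ := max (1 / lam) (g / (za g lam q + g)) with hρ
  have hρ1 : ρ < 1 := by
    rw [hρ]
    apply max_lt
    · rw [div_lt_one hl0]
      exact hlam
    · rw [div_lt_one (by linarith)]
      linarith
  have hρ0 : 0 < ρ := lt_of_lt_of_le (by positivity) (le_max_left _ _)
  have hdist : ∀ n k, |st g lam q n k - zs| ≤ |1 - zs| * ρ ^ n := by
    intro n
    induction n with
    | zero =>
      intro k
      simp [st]
    | succ n ih =>
      intro k
      have hI := hst n (k / 2)
      have hi := ih (k / 2)
      set z : ℝ := st g lam q n (k / 2) with hzdef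
      have hz0 : 0 < z := lt_of_lt_of_le hza hI.1
      have hb : 0 ≤ |z - zs| := abs_nonneg _
      rw [st]
      split_ifs
      · have e : G0 g lam z - zs = (z - zs) * (1 / lam) := by
          unfold G0
          field_simp
          linarith
        rw [e, abs_mul, abs_of_pos (show (0 : ℝ) < 1 / lam by positivity), pow_succ]
        calc |z - zs| * (1 / lam) ≤ |z - zs| * ρ :=
              mul_le_mul_of_nonneg_left (le_max_left _ _) hb
          _ ≤ |1 - zs| * ρ ^ n * ρ := mul_le_mul_of_nonneg_right hi hρ0.le
          _ = _ := by ring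
      · have e : G1 g q z - zs = (z - zs) * (g / (z + g)) := by
          unfold G1
          have : z + g ≠ 0 := by positivity
          field_simp
          rw [hzs]
          ring
        rw [e, abs_mul, abs_of_pos (show (0 : ℝ) < g / (z + g) by positivity), pow_succ]
        have hc : g / (z + g) ≤ ρ := by
          refine le_trans ?_ (le_max_right _ _)
          apply div_le_div_of_nonneg_left hg.le (by linarith)
          linarith [hI.1]
        calc |z - zs| * (g / (z + g)) ≤ |z - zs| * ρ := mul_le_mul_of_nonneg_left hc hb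
          _ ≤ |1 - zs| * ρ ^ n * ρ := mul_le_mul_of_nonneg_right hi hρ0.le
          _ = _ := by ring
  refine ⟨|1 - zs| / g + 1, by positivity, ρ, ⟨hρ0, hρ1⟩, fun n k => ?_⟩
  have hI := hst n k
  have hd := hdist n k
  set z : ℝ := st g lam q n k with hzdef
  have hz0 : 0 < z := lt_of_lt_of_le hza hI.1
  have hp : pz g z - 1 / lam = (z - zs) * (g / ((z + g) * (zs + g))) := by
    have h1 : 1 / lam = zs / (zs + g) := by
      rw [← hzl]
      field_simp
    rw [h1]
    unfold pz
    have h2 : z + g ≠ 0 := by positivity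
    have h3 : zs + g ≠ 0 := by positivity
    field_simp
    ring
  have hc : g / ((z + g) * (zs + g)) ≤ 1 / g := by
    rw [div_le_div_iff₀ (by positivity) hg]
    nlinarith [mul_pos hz0 hzs0, mul_pos hz0 hg, mul_pos hzs0 hg]
  rw [hp, abs_mul, abs_of_pos (show 0 < g / ((z + g) * (zs + g)) by positivity)]
  have hρn : 0 < ρ ^ n := pow_pos hρ0 n
  calc |z - zs| * (g / ((z + g) * (zs + g))) ≤ |z - zs| * (1 / g) :=
        mul_le_mul_of_nonneg_left hc (abs_nonneg _)
    _ ≤ |1 - zs| * ρ ^ n * (1 / g) := mul_le_mul_of_nonneg_right hd (by positivity)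
    _ = |1 - zs| / g * ρ ^ n := by ring
    _ ≤ (|1 - zs| / g + 1) * ρ ^ n := by nlinarith

end Pool.Agent.Q295.MD
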