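import Pool.Agent.Q88.MD.Stm

/-! JOB LGM of the project MD. -/

set_option autoImplicit false

open Set Filter Topology

namespace Pool.Agent.Q295.MD

open Pool.Agent.Q88.MD

theorem abs_log_sub_le {x y m : ℝ} (hm : 0 < m) (hx : m ≤ x) (hy : m ≤ y) :
    |Real.log x - Real.log y| ≤ |x - y| / m := by
  have hx0 : 0 < x := lt_of_lt_of_le hm hx
  have hy0 : 0 < y := lt_of_lt_of_le hm hy
  have key : ∀ a b : ℝ, m ≤ a → m ≤ b → Real.log a - Real.log b ≤ |a - b| / m := by
    intro a b ha hb
    have ha0 : 0 < a := lt_of_lt_of_le hm ha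
    have hb0 : 0 < b := lt_of_lt_of_le hm hb
    rw [← Real.log_div ha0.ne' hb0.ne']
    have h1 := Real.log_le_sub_one_of_pos (div_pos ha0 hb0)
    have h2 : a / b - 1 = (a - b) / b := by field_simp
    rw [h2] at h1
    refine h1.trans ?_
    calc (a - b) / b ≤ |a - b| / b := div_le_div_of_nonneg_right (le_abs_self _) hb0.le
      _ ≤ |a - b| / m := div_le_div_of_nonneg_left (abs_nonneg _) hm hb
  rw [abs_le]
  constructor
  · have := key y x hy hx
    rw [abs_sub_comm] at this
    linarith
  · exact key x y hx hy

theorem lgm (h : S_spos) (h0 : S_inv) (h1 : S_cnv) : S_lgm := by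
  intro g lam q hg hlam hq hz
  obtain ⟨hza, -, hst⟩ := h0 g lam q hg hlam hq
  obtain ⟨C, hC, ρ, ⟨hρ0, hρ1⟩, hcnv⟩ := h1 g lam q hg hlam hq hz
  have hl1 : 0 < lam - 1 := by linarith
  have hl0 : 0 < lam := by linarith
  have hP0 : 0 < 1 / lam := by positivity
  have hP1 : 0 < 1 - 1 / lam := by
    have : 1 / lam < 1 := by
      rw [div_lt_one hl0]
      exact hlam
    linarith
  have hzb : 0 < zb g lam q := lt_of_lt_of_le one_pos (le_max_left _ _)
  set m : ℝ := min (min (za g lam q / (za g lam q + g)) (g / (zb g lam q + g)))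
    (min (1 / lam) (1 - 1 / lam)) with hm
  have hm0 : 0 < m := by
    rw [hm]
    exact lt_min (lt_min (by positivity) (by positivity)) (lt_min hP0 hP1)
  have hpz : ∀ n k, m ≤ pz g (st g lam q n k) ∧ m ≤ 1 - pz g (st g lam q n k) := by
    intro n k
    have hI := hst n k
    set z : ℝ := st g lam q n k with hzdef
    have hz0 : 0 < z := lt_of_lt_of_le hza hI.1
    constructor
    · refine ((min_le_left _ _).trans (min_le_left _ _)).trans ?_
      unfold pz
      rw [div_le_div_iff₀ (by positivity) (by positivity)]
      nlinarith [hI.1]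
    · refine ((min_le_left _ _).trans (min_le_right _ _)).trans ?_
      have e : 1 - pz g z = g / (z + g) := by
        unfold pz
        field_simp
        ring
      rw [e]
      apply div_le_div_of_nonneg_left hg.le (by positivity)
      linarith [hI.2]
  have hmP0 : m ≤ 1 / lam := (min_le_right _ _).trans (min_le_left _ _)
  have hmP1 : m ≤ 1 - 1 / lam := (min_le_right _ _).trans (min_le_right _ _)
  have hell : Real.log (lam - 1) = Real.log (1 - 1 / lam) - Real.log (1 / lam) := by
    rw [← Real.log_div hP1.ne' hP0.ne']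
    congr 1
    field_simp
  have hH : Real.binEntropy (1 / lam) =
      -(1 / lam * Real.log (1 / lam)) - (1 - 1 / lam) * Real.log (1 - 1 / lam) := by
    unfold Real.binEntropy
    rw [Real.log_inv, Real.log_inv]
    ring
  have h1ρ : 0 < 1 - ρ := by linarith
  set D : ℝ := C / (m * (1 - ρ)) with hD
  have hD0 : 0 < D := by positivity
  have hmain : ∀ n k, |Real.log (ms g lam q n k) -
      (-(n : ℝ) * Real.binEntropy (1 / lam) + Real.log (lam - 1) * WW lam n k)| ≤
        D * (1 - ρ ^ n) := by
    intro n
    induction n with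
    | zero =>
      intro k
      simp [ms, WW]
    | succ n ih =>
      intro k
      have hi := ih (k / 2)
      have hms : 0 < ms g lam q n (k / 2) := ((h g lam q hg hlam.le hq.le n).1 (k / 2)).2
      have hp := hpz n (k / 2)
      have hc := hcnv n (k / 2)
      set z : ℝ := st g lam q n (k / 2) with hzdef
      have hstep : D * (1 - ρ ^ n) + C * ρ ^ n / m = D * (1 - ρ ^ (n + 1)) := by
        rw [hD, pow_succ]
        field_simp
        ring
      rw [ms, WW, ← hstep]
      push_cast
      split_ifs
      · rw [Real.log_mul hms.ne' (lt_of_lt_of_le hm0 hp.1).ne']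
        have h2 := abs_log_sub_le hm0 hp.1 hmP0
        have h3 : |Real.log (pz g z) - Real.log (1 / lam)| ≤ C * ρ ^ n / m :=
          h2.trans (div_le_div_of_nonneg_right hc hm0.le)
        have e : Real.log (ms g lam q n (k / 2)) + Real.log (pz g z) -
            (-((n : ℝ) + 1) * Real.binEntropy (1 / lam) +
              Real.log (lam - 1) * (WW lam n (k / 2) + -(1 - 1 / lam))) =
            (Real.log (ms g lam q n (k / 2)) - (-(n : ℝ) * Real.binEntropy (1 / lam) +
              Real.log (lam - 1) * WW lam n (k / 2))) +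
            (Real.log (pz g z) - Real.log (1 / lam)) := by
          rw [hH, hell]
          ring
        rw [e]
        exact (abs_add_le _ _).trans (add_le_add hi h3)
      · rw [Real.log_mul hms.ne' (lt_of_lt_of_le hm0 hp.2).ne']
        have h2 := abs_log_sub_le hm0 hp.2 hmP1
        have h4 : |1 - pz g z - (1 - 1 / lam)| = |pz g z - 1 / lam| := by
          rw [← abs_neg]
          congr 1
          ring
        rw [h4] at h2
        have h3 : |Real.log (1 - pz g z) - Real.log (1 - 1 / lam)| ≤ C * ρ ^ n / m :=
          h2.trans (div_le_div_of_nonneg_right hc hm0.le)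
        have e : Real.log (ms g lam q n (k / 2)) + Real.log (1 - pz g z) -
            (-((n : ℝ) + 1) * Real.binEntropy (1 / lam) +
              Real.log (lam - 1) * (WW lam n (k / 2) + 1 / lam)) =
            (Real.log (ms g lam q n (k / 2)) - (-(n : ℝ) * Real.binEntropy (1 / lam) +
              Real.log (lam - 1) * WW lam n (k / 2))) +
            (Real.log (1 - pz g z) - Real.log (1 - 1 / lam)) := by
          rw [hH, hell]
          ring
        rw [e]
        exact (abs_add_le _ _).trans (add_le_add hi h3)
  refine ⟨D, hD0, fun n k => (hmain n k).trans ?_⟩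
  have : 0 ≤ ρ ^ n := pow_nonneg hρ0.le n
  nlinarith

end Pool.Agent.Q295.MD
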